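import Pool.Agent.Y476.RM.Stm

set_option autoImplicit false
open MeasureTheory Filter Topology
open scoped ENNReal

namespace Pool.Agent.Y43.HM.Ahl
open Pool.Agent.Y476.RM

/-- the set where a density of the shape `ψ * dm/dS` does not vanish is charged only as `m` is -/
theorem restrict_ac {X : Type} [MeasurableSpace X] (S m : Measure X) [IsFiniteMeasure S]
    [IsFiniteMeasure m] (hm : m ≪ S) (ψ D : X → ℂ)
    (hD : D =ᵐ[S] fun w => (m.rnDeriv S w).toReal • ψ w) :
    S.restrict {w | D w ≠ 0} ≪ m := by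
  refine Measure.AbsolutelyContinuous.mk fun A hA h0 => ?_
  rw [Measure.restrict_apply hA]
  have h1 : ∫⁻ w in A, m.rnDeriv S w ∂S = 0 := by
    rw [Measure.setLIntegral_rnDeriv hm]; exact h0
  rw [lintegral_eq_zero_iff (Measure.measurable_rnDeriv m S)] at h1
  rw [EventuallyEq, ae_restrict_iff' hA] at h1
  rw [measure_eq_zero_iff_ae_notMem]
  filter_upwards [h1, hD] with w hw hw' hmem
  have h2 := hw hmem.1
  simp only [Pi.zero_apply] at h2
  apply hmem.2
  rw [hw', h2]
  simp

theorem t (hG : S_GHL) (hR : S_RIESZ) (hU : S_UNIQ) : S_AHL := by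
  intro σ₁ σ₂ σ₃ _ _ _ N C K hat hN hN0 hσN h12 h13 h23
  obtain ⟨ψ12, m12, i12, e12⟩ := hR σ₁ σ₂ (ℤ × ℤ) (fun i => i.1) (fun i => i.2)
    (fun i => C i.1 i.2) K h12
  obtain ⟨ψ13, m13, i13, e13⟩ := hR σ₁ σ₃ (ℤ × ℤ) (fun i => i.1 - i.2) (fun i => -i.2)
    (fun i => C i.1 i.2) K h13
  obtain ⟨ψ23, m23, i23, e23⟩ := hR σ₂ σ₃ (ℤ × ℤ) (fun i => i.2 - i.1) (fun i => -i.1)
    (fun i => C i.1 i.2) K h23
  -- coordinate changes
  let g13 : TT × TT → TT × TT := fun p => (p.1, -p.1 - p.2)
  let g23 : TT × TT → TT × TT := fun p => (-p.1 - p.2, p.1)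
  let k23 : TT × TT → TT × TT := fun p => (p.2, -p.1 - p.2)
  have hg13 : Measurable g13 := by fun_prop
  have hg23 : Measurable g23 := by fun_prop
  have hk23 : Measurable k23 := by fun_prop
  have hgg : g13 ∘ g13 = id := by
    funext p; ext <;> simp [g13]
  have hkg : k23 ∘ g23 = id := by
    funext p; ext <;> simp [g23, k23]
  set M12 : Measure (TT × TT) := σ₁.prod σ₂ with hM12
  set M13 : Measure (TT × TT) := (σ₁.prod σ₃).map g13 with hM13
  set M23 : Measure (TT × TT) := (σ₂.prod σ₃).map g23 with hM23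
  have : IsFiniteMeasure M13 := Measure.isFiniteMeasure_map _ _
  have : IsFiniteMeasure M23 := Measure.isFiniteMeasure_map _ _
  set S : Measure (TT × TT) := M12 + M13 + M23 with hS
  have a12 : M12 ≪ S := by
    rw [hS, add_assoc]
    exact Measure.AbsolutelyContinuous.rfl.add_right _
  have a13 : M13 ≪ S := by
    rw [hS, add_comm M12 M13, add_assoc]
    exact Measure.AbsolutelyContinuous.rfl.add_right _
  have a23 : M23 ≪ S := by
    rw [hS, add_comm (M12 + M13) M23]
    exact Measure.AbsolutelyContinuous.rfl.add_right _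
  let φ13 : TT × TT → ℂ := ψ13 ∘ g13
  let φ23 : TT × TT → ℂ := ψ23 ∘ k23
  have mφ13 : Measurable φ13 := m13.comp hg13
  have mφ23 : Measurable φ23 := m23.comp hk23
  have iφ13 : Integrable φ13 M13 := by
    rw [hM13, integrable_map_measure mφ13.aestronglyMeasurable hg13.aemeasurable]
    have : φ13 ∘ g13 = ψ13 := by
      show (ψ13 ∘ g13) ∘ g13 = ψ13
      rw [Function.comp_assoc, hgg]; rfl
    rw [this]; exact i13
  have iφ23 : Integrable φ23 M23 := by
    rw [hM23, integrable_map_measure mφ23.aestronglyMeasurable hg23.aemeasurable]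
    have : φ23 ∘ g23 = ψ23 := by
      show (ψ23 ∘ k23) ∘ g23 = ψ23
      rw [Function.comp_assoc, hkg]; rfl
    rw [this]; exact i23
  have mch : ∀ a b : ℤ, Measurable (fun w : TT × TT => (fourier a w.1 : ℂ) * (fourier b w.2 : ℂ)) := by
    intro a b
    have h1 : Measurable (fun w : TT × TT => (fourier a w.1 : ℂ)) :=
      ((fourier a).continuous.comp continuous_fst).measurable
    have h2 : Measurable (fun w : TT × TT => (fourier b w.2 : ℂ)) :=
      ((fourier b).continuous.comp continuous_snd).measurable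
    exact h1.mul h2
  have f12 : ∀ a b : ℤ, C a b = ∫ w, (fourier a w.1 : ℂ) * (fourier b w.2 : ℂ) * ψ12 w ∂M12 :=
    fun a b => e12 (a, b)
  have f13 : ∀ a b : ℤ, C a b = ∫ w, (fourier a w.1 : ℂ) * (fourier b w.2 : ℂ) * φ13 w ∂M13 := by
    intro a b
    have hmm : AEStronglyMeasurable
        (fun w => (fourier a w.1 : ℂ) * (fourier b w.2 : ℂ) * φ13 w) ((σ₁.prod σ₃).map g13) :=
      ((mch a b).mul mφ13).aestronglyMeasurable
    rw [hM13, integral_map hg13.aemeasurable hmm]
    rw [e13 (a, b)]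
    refine integral_congr_ae (Eventually.of_forall fun w => ?_)
    have : φ13 (g13 w) = ψ13 w := by
      show ψ13 ((g13 ∘ g13) w) = ψ13 w
      rw [hgg]; rfl
    simp only [this]
    congr 1
    show (fourier (a - b) w.1 : ℂ) * (fourier (-b) w.2 : ℂ)
      = (fourier a w.1 : ℂ) * (fourier b (-w.1 - w.2) : ℂ)
    simp only [fourier_apply, ← Circle.coe_mul, ← AddCircle.toCircle_add]
    congr 2
    module
  have f23 : ∀ a b : ℤ, C a b = ∫ w, (fourier a w.1 : ℂ) * (fourier b w.2 : ℂ) * φ23 w ∂M23 := by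
    intro a b
    have hmm : AEStronglyMeasurable
        (fun w => (fourier a w.1 : ℂ) * (fourier b w.2 : ℂ) * φ23 w) ((σ₂.prod σ₃).map g23) :=
      ((mch a b).mul mφ23).aestronglyMeasurable
    rw [hM23, integral_map hg23.aemeasurable hmm]
    rw [e23 (a, b)]
    refine integral_congr_ae (Eventually.of_forall fun w => ?_)
    have : φ23 (g23 w) = ψ23 w := by
      show ψ23 ((k23 ∘ g23) w) = ψ23 w
      rw [hkg]; rfl
    simp only [this]
    congr 1
    show (fourier (b - a) w.1 : ℂ) * (fourier (-a) w.2 : ℂ)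
      = (fourier a (-w.1 - w.2) : ℂ) * (fourier b w.1 : ℂ)
    simp only [fourier_apply, ← Circle.coe_mul, ← AddCircle.toCircle_add]
    congr 2
    module
  -- a common form
  have key : ∀ (m : Measure (TT × TT)) [IsFiniteMeasure m], m ≪ S → ∀ ψ : TT × TT → ℂ,
      Integrable ψ m → (∀ a b : ℤ, C a b = ∫ w, (fourier a w.1 : ℂ) * (fourier b w.2 : ℂ) * ψ w ∂m) →
      Integrable (fun w => (m.rnDeriv S w).toReal • ψ w) S ∧
      ∀ a b : ℤ, C a b = ∫ w, (fourier a w.1 : ℂ) * (fourier b w.2 : ℂ) *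
        ((m.rnDeriv S w).toReal • ψ w) ∂S := by
    intro m _ hm ψ hψ hC
    refine ⟨(integrable_rnDeriv_smul_iff hm).2 hψ, fun a b => ?_⟩
    rw [hC a b, ← integral_rnDeriv_smul hm]
    refine integral_congr_ae (Eventually.of_forall fun w => ?_)
    simp only [Complex.real_smul]
    ring
  obtain ⟨j12, q12⟩ := key M12 a12 ψ12 i12 f12
  obtain ⟨j13, q13⟩ := key M13 a13 φ13 iφ13 f13
  obtain ⟨j23, q23⟩ := key M23 a23 φ23 iφ23 f23
  set D12 : TT × TT → ℂ := fun w => (M12.rnDeriv S w).toReal • ψ12 w with hD12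
  set D13 : TT × TT → ℂ := fun w => (M13.rnDeriv S w).toReal • φ13 w with hD13
  set D23 : TT × TT → ℂ := fun w => (M23.rnDeriv S w).toReal • φ23 w with hD23
  have bd : ∀ (a b : ℤ) (D : TT × TT → ℂ), Integrable D S →
      Integrable (fun w => (fourier a w.1 : ℂ) * (fourier b w.2 : ℂ) * D w) S := by
    intro a b D hD
    refine hD.bdd_mul (c := 1) (mch a b).aestronglyMeasurable (Eventually.of_forall fun w => ?_)
    rw [norm_mul, fourier_apply, fourier_apply, Circle.norm_coe, Circle.norm_coe, mul_one]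
  have eqD : ∀ D D' : TT × TT → ℂ, Integrable D S → Integrable D' S →
      (∀ a b : ℤ, C a b = ∫ w, (fourier a w.1 : ℂ) * (fourier b w.2 : ℂ) * D w ∂S) →
      (∀ a b : ℤ, C a b = ∫ w, (fourier a w.1 : ℂ) * (fourier b w.2 : ℂ) * D' w ∂S) →
      D =ᵐ[S] D' := by
    intro D D' hD hD' h h'
    have h0 := hU S (fun w => D w - D' w) (hD.sub hD') (by
      intro a b
      have : (fun w : TT × TT => (fourier a w.1 : ℂ) * (fourier b w.2 : ℂ) * (D w - D' w)) =
          fun w => (fourier a w.1 : ℂ) * (fourier b w.2 : ℂ) * D w -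
            (fourier a w.1 : ℂ) * (fourier b w.2 : ℂ) * D' w := by
        funext w; ring
      rw [this, integral_sub (bd a b D hD) (bd a b D' hD'), ← h a b, ← h' a b, sub_self])
    filter_upwards [h0] with w hw
    simpa [sub_eq_zero] using hw
  have E13 : D12 =ᵐ[S] D13 := eqD D12 D13 j12 j13 q12 q13
  have E23 : D12 =ᵐ[S] D23 := eqD D12 D23 j12 j23 q12 q23
  have mD12 : Measurable D12 :=
    ((Measure.measurable_rnDeriv M12 S).ennreal_toReal).smul m12
  have mE : MeasurableSet {w | D12 w ≠ 0} := (mD12 (measurableSet_singleton 0)).compl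
  set P : Measure (TT × TT) := S.restrict {w | D12 w ≠ 0} with hP
  have P12 : P ≪ M12 := restrict_ac S M12 a12 ψ12 D12 (Eventually.of_forall fun _ => rfl)
  have P13 : P ≪ M13 := restrict_ac S M13 a13 φ13 D12 E13
  have P23 : P ≪ M23 := restrict_ac S M23 a23 φ23 D12 E23
  have G := hG P σ₁ σ₂ σ₃ hat P12 (by
      have h := P13.map hg13
      rw [hM13, Measure.map_map hg13 hg13, hgg, Measure.map_id] at h
      exact h) (by
      have h := P23.map hk23
      rw [hM23, Measure.map_map hk23 hg23, hkg, Measure.map_id] at h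
      exact h)
  have mzz : Measurable zz := by unfold zz; fun_prop
  have z1 : P (zz ⁻¹' N) = 0 := by
    rw [← Measure.map_apply mzz hN]; exact G hN0
  have z2 : P (zz ⁻¹' Nᶜ) = 0 := by
    apply P13
    rw [hM13, Measure.map_apply hg13 (mzz hN.compl)]
    have : g13 ⁻¹' (zz ⁻¹' Nᶜ) = Set.univ ×ˢ Nᶜ := by
      ext p; simp [g13, zz]
    rw [this, Measure.prod_prod, hσN, mul_zero]
  have z3 : P Set.univ = 0 := by
    refine measure_mono_null (t := zz ⁻¹' N ∪ zz ⁻¹' Nᶜ) ?_ (measure_union_null z1 z2)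
    intro p _
    by_cases h : zz p ∈ N
    · exact Or.inl h
    · exact Or.inr h
  have z4 : D12 =ᵐ[S] 0 := by
    rw [hP, Measure.restrict_apply_univ] at z3
    exact z3
  intro a b
  rw [q12 a b]
  rw [integral_congr_ae (g := fun _ => (0 : ℂ)) (by
    filter_upwards [z4] with w hw
    have hw' : (M12.rnDeriv S w).toReal • ψ12 w = 0 := hw
    rw [hw', mul_zero])]
  simp

end Pool.Agent.Y43.HM.Ahl
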